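import Mathlib

set_option autoImplicit false

open Set Filter
open Cardinal (mk_range_le)
open scoped Cardinal

namespace Pool.Agent.H414G

/-- An open cover of `X`: a family of open sets whose union is `X` and which does not contain `X`
itself. -/
def IsOpenCover (X : Type) [TopologicalSpace X] (𝒰 : Set (Set X)) : Prop :=
  (∀ U ∈ 𝒰, IsOpen U) ∧ ⋃₀ 𝒰 = univ ∧ univ ∉ 𝒰

/-- An `ω`-cover: every finite subset is contained in some member. -/
def IsOmegaCover (X : Type) [TopologicalSpace X] (𝒰 : Set (Set X)) : Prop :=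
  IsOpenCover X 𝒰 ∧ ∀ F : Set X, F.Finite → ∃ U ∈ 𝒰, F ⊆ U

/-- A `γ`-cover: it is infinite and every point lies in all but finitely many members. -/
def IsGammaCover (X : Type) [TopologicalSpace X] (𝒰 : Set (Set X)) : Prop :=
  IsOpenCover X 𝒰 ∧ 𝒰.Infinite ∧ ∀ x : X, {U ∈ 𝒰 | x ∉ U}.Finite

/-- The `γ`-property: every open `ω`-cover contains a `γ`-cover. -/
def GammaProperty (X : Type) [TopologicalSpace X] : Prop :=
  ∀ 𝒰 : Set (Set X), IsOmegaCover X 𝒰 → ∃ 𝒱 ⊆ 𝒰, IsGammaCover X 𝒱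

/-- `S₁(Γ, O)`. -/
def SOneGammaO (X : Type) [TopologicalSpace X] : Prop :=
  ∀ 𝒰 : ℕ → Set (Set X), (∀ n, IsGammaCover X (𝒰 n)) →
    ∃ U : ℕ → Set X, (∀ n, U n ∈ 𝒰 n) ∧ ⋃ n, U n = univ

/-- The dominating number `𝔡`. -/
noncomputable def dNum : Cardinal.{0} :=
  sInf {κ | ∃ D : Set (ℕ → ℕ), #D = κ ∧ ∀ f : ℕ → ℕ, ∃ g ∈ D, ∀ᶠ n in atTop, f n ≤ g n}

/-- The bounding number `𝔟`. -/
noncomputable def bNum : Cardinal.{0} :=
  sInf {κ | ∃ B : Set (ℕ → ℕ), #B = κ ∧ ∀ g : ℕ → ℕ, ∃ f ∈ B, ¬ ∀ᶠ n in atTop, f n ≤ g n}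

/-- `cov(M)`: the least size of a family of meager subsets of the Baire space which covers it. -/
noncomputable def covM : Cardinal.{0} :=
  sInf {κ | ∃ F : Set (Set (ℕ → ℕ)), #F = κ ∧ (∀ M ∈ F, IsMeagre M) ∧ ⋃₀ F = univ}

/-- Every infinite `X` has an infinite subset in `𝒟`. -/
def DenseFam (𝒟 : Set (Set ℕ)) : Prop :=
  ∀ X : Set ℕ, X.Infinite → ∃ Y ∈ 𝒟, Y.Infinite ∧ Y ⊆ X

/-- `𝒟` is closed under infinite almost subsets. -/
def OpenFam (𝒟 : Set (Set ℕ)) : Prop :=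
  ∀ X ∈ 𝒟, ∀ Y : Set ℕ, Y.Infinite → (Y \ X).Finite → Y ∈ 𝒟

/-- The distributivity number `𝔥`: the least size of a family of dense open sets of `[ω]^ω` whose
intersection is not dense. -/
noncomputable def hNum : Cardinal.{0} :=
  sInf {κ | ∃ F : Set (Set (Set ℕ)), #F = κ ∧ (∀ 𝒟 ∈ F, DenseFam 𝒟 ∧ OpenFam 𝒟) ∧
    ¬ DenseFam (⋂₀ F)}

/-! ### Using the cardinals -/

theorem exists_not_dominated {ι : Type} (h : #ι < dNum) (g : ι → ℕ → ℕ) :
    ∃ f : ℕ → ℕ, ∀ i, ∃ᶠ n in atTop, g i n < f n := by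
  by_contra hc
  push Not at hc
  have : dNum ≤ #(range g) := by
    apply csInf_le'
    refine ⟨range g, rfl, fun f => ?_⟩
    obtain ⟨i, hi⟩ := hc f
    refine ⟨g i, ⟨i, rfl⟩, ?_⟩
    simpa [Filter.Frequently, not_lt] using hi
  exact absurd (this.trans mk_range_le) (not_le.2 h)

theorem exists_bound {ι : Type} (h : #ι < bNum) (g : ι → ℕ → ℕ) :
    ∃ f : ℕ → ℕ, ∀ i, ∀ᶠ n in atTop, g i n ≤ f n := by
  by_contra hc
  push Not at hc
  have : bNum ≤ #(range g) := by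
    apply csInf_le'
    refine ⟨range g, rfl, fun f => ?_⟩
    obtain ⟨i, hi⟩ := hc f
    refine ⟨g i, ⟨i, rfl⟩, ?_⟩
    intro hh
    simp only [Filter.Frequently] at hi
    exact hi (by simpa [not_le, not_lt] using hh)
  exact absurd (this.trans mk_range_le) (not_le.2 h)

theorem exists_mem_residual {ι : Type} (h : #ι < covM) (G : ι → Set (ℕ → ℕ))
    (hG : ∀ i, G i ∈ residual (ℕ → ℕ)) : ∃ f : ℕ → ℕ, ∀ i, f ∈ G i := by
  by_contra hc
  push Not at hc
  have : covM ≤ #(range fun i => (G i)ᶜ) := by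
    apply csInf_le'
    refine ⟨range fun i => (G i)ᶜ, rfl, ?_, ?_⟩
    · rintro _ ⟨i, rfl⟩
      show (G i)ᶜᶜ ∈ residual _
      rw [compl_compl]
      exact hG i
    · apply eq_univ_of_forall
      intro f
      obtain ⟨i, hi⟩ := hc f
      exact ⟨(G i)ᶜ, ⟨i, rfl⟩, hi⟩
  exact absurd (this.trans mk_range_le) (not_le.2 h)

theorem exists_mem_dense {ι : Type} (h : #ι < hNum) (𝒟 : ι → Set (Set ℕ))
    (hd : ∀ i, DenseFam (𝒟 i)) (ho : ∀ i, OpenFam (𝒟 i)) :
    ∃ D : Set ℕ, D.Infinite ∧ ∀ i, D ∈ 𝒟 i := by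
  by_cases hc : DenseFam (⋂₀ range 𝒟)
  · obtain ⟨Y, hY, hi, -⟩ := hc univ infinite_univ
    exact ⟨Y, hi, fun i => hY _ ⟨i, rfl⟩⟩
  · have : hNum ≤ #(range 𝒟) := by
      apply csInf_le'
      refine ⟨range 𝒟, rfl, ?_, hc⟩
      rintro _ ⟨i, rfl⟩
      exact ⟨hd i, ho i⟩
    exact absurd (this.trans mk_range_le) (not_le.2 h)

/-- Partial functions which are hit infinitely often. -/
theorem hit_residual (p : ℕ → ℕ × ℕ) (hp : StrictMono fun j => (p j).1) :
    {f : ℕ → ℕ | ∃ᶠ j in atTop, f (p j).1 = (p j).2} ∈ residual (ℕ → ℕ) := by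
  have key : ∀ J : ℕ, {f : ℕ → ℕ | ∃ j ≥ J, f (p j).1 = (p j).2} ∈ residual (ℕ → ℕ) := by
    intro J
    apply residual_of_dense_open
    · have : {f : ℕ → ℕ | ∃ j ≥ J, f (p j).1 = (p j).2} =
          ⋃ j, ⋃ (_ : J ≤ j), (fun f : ℕ → ℕ => f (p j).1) ⁻¹' {(p j).2} := by
        ext f
        simp
      rw [this]
      exact isOpen_iUnion fun j => isOpen_iUnion fun _ =>
        (isOpen_discrete _).preimage (continuous_apply _)
    · rw [dense_iff_inter_open]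
      rintro U hU ⟨f, hf⟩
      obtain ⟨I, u, hu, hI⟩ := isOpen_pi_iff.1 hU f hf
      obtain ⟨N, hN⟩ : ∃ N, ∀ i ∈ I, i < N := by
        refine ⟨I.sup id + 1, fun i hi => Nat.lt_succ_of_le (Finset.le_sup (f := id) hi)⟩
      set j := max J N with hj
      have h1 : N ≤ (p j).1 := (le_max_right J N).trans (hp.id_le j)
      refine ⟨Function.update f (p j).1 (p j).2, hI ?_, j, le_max_left _ _, by simp⟩
      intro i hi
      have : i ≠ (p j).1 := ((hN i hi).trans_le h1).ne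
      rw [Function.update_of_ne this]
      exact (hu i hi).2
  have : {f : ℕ → ℕ | ∃ᶠ j in atTop, f (p j).1 = (p j).2} =
      ⋂ J, {f : ℕ → ℕ | ∃ j ≥ J, f (p j).1 = (p j).2} := by
    ext f
    simp [frequently_atTop]
  rw [this]
  exact countable_iInter_mem.2 key

/-! ### Selection in a space with the `γ`-property -/

theorem gamma_select {Y : Type} [TopologicalSpace Y] [T1Space Y] (hY : GammaProperty Y)
    (V : ℕ → ℕ → Set Y) (hV : ∀ n m, IsOpen (V n m)) (h : ∀ n y, ∀ᶠ m in atTop, y ∈ V n m) :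
    ∃ p : ℕ → ℕ × ℕ, StrictMono (fun j => (p j).1) ∧
      ∀ y, ∀ᶠ j in atTop, y ∈ V (p j).1 (p j).2 := by
  classical
  rcases finite_or_infinite Y with hf | hi
  · have : ∀ n, ∃ m, ∀ y, y ∈ V n m := fun n => ((eventually_all.2 (h n))).exists
    choose m hm using this
    exact ⟨fun j => (j, m j), strictMono_id, fun y => Eventually.of_forall fun j => hm j y⟩
  · let e : ℕ ↪ Y := Infinite.natEmbedding Y
    let 𝒲 : Set (Set Y) := {W | ∃ n m, W = V n m \ {e n}}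
    have hfin : ∀ F : Set Y, F.Finite → ∃ W ∈ 𝒲, F ⊆ W := by
      intro F hF
      obtain ⟨n, hn⟩ : ∃ n, e n ∉ F := by
        by_contra hc
        push Not at hc
        exact (infinite_range_of_injective e.injective) (hF.subset (range_subset_iff.2 hc))
      obtain ⟨m, hm⟩ : ∃ m, ∀ y ∈ F, y ∈ V n m :=
        ((hF.eventually_all).2 fun y _ => h n y).exists
      exact ⟨V n m \ {e n}, ⟨n, m, rfl⟩, fun y hy => ⟨hm y hy, fun hye => hn (by
        rw [mem_singleton_iff] at hye; rwa [← hye])⟩⟩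
    have hω : IsOmegaCover Y 𝒲 := by
      refine ⟨⟨?_, ?_, ?_⟩, hfin⟩
      · rintro _ ⟨n, m, rfl⟩
        exact (hV n m).sdiff isClosed_singleton
      · apply eq_univ_of_forall
        intro y
        obtain ⟨W, hW, hy⟩ := hfin {y} (finite_singleton y)
        exact ⟨W, hW, hy rfl⟩
      · rintro ⟨n, m, hnm⟩
        have : e n ∈ (univ : Set Y) := mem_univ _
        rw [hnm] at this
        exact this.2 rfl
    obtain ⟨𝒱, h𝒱, -, hinf, hγ⟩ := hY 𝒲 hω
    have hc : ∀ W : Set Y, ∃ q : ℕ × ℕ, W ∈ 𝒱 → W = V q.1 q.2 \ {e q.1} := by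
      intro W
      by_cases hW : W ∈ 𝒱
      · obtain ⟨n, m, hnm⟩ := h𝒱 hW
        exact ⟨(n, m), fun _ => hnm⟩
      · exact ⟨(0, 0), fun h => absurd h hW⟩
    choose c hc using hc
    have hS : {n | ∃ W ∈ 𝒱, (c W).1 = n}.Infinite := by
      intro hfinS
      apply hinf
      have : 𝒱 ⊆ ⋃ n ∈ {n | ∃ W ∈ 𝒱, (c W).1 = n}, {W ∈ 𝒱 | e n ∉ W} := by
        intro W hW
        simp only [mem_iUnion]
        exact ⟨(c W).1, ⟨W, hW, rfl⟩, hW, fun h => ((hc W hW).subset h).2 rfl⟩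
      exact (hfinS.biUnion fun n _ => hγ (e n)).subset this
    have hW : ∀ n, ∃ W, n ∈ {n | ∃ W ∈ 𝒱, (c W).1 = n} → W ∈ 𝒱 ∧ (c W).1 = n := by
      intro n
      by_cases hn : n ∈ {n | ∃ W ∈ 𝒱, (c W).1 = n}
      · obtain ⟨W, h1, h2⟩ := hn
        exact ⟨W, fun _ => ⟨h1, h2⟩⟩
      · exact ⟨∅, fun h => absurd h hn⟩
    choose W hW using hW
    let S := {n | ∃ W ∈ 𝒱, (c W).1 = n}
    let s : ℕ → ℕ := Nat.nth (· ∈ S)
    have hs : StrictMono s := Nat.nth_strictMono hS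
    have hsS : ∀ j, s j ∈ S := fun j => Nat.nth_mem_of_infinite hS j
    refine ⟨fun j => c (W (s j)), ?_, ?_⟩
    · intro i j hij
      show (c (W (s i))).1 < (c (W (s j))).1
      rw [(hW _ (hsS i)).2, (hW _ (hsS j)).2]
      exact hs hij
    · intro y
      have hinj : Function.Injective fun j => W (s j) := by
        intro i j hij
        have h1 := (hW _ (hsS i)).2
        have h2 := (hW _ (hsS j)).2
        have h3 : W (s i) = W (s j) := hij
        rw [h3] at h1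
        exact hs.injective (h1.symm.trans h2)
      have hfinj : {j | y ∉ W (s j)}.Finite := by
        have : {j | y ∉ W (s j)} ⊆ (fun j => W (s j)) ⁻¹' {U ∈ 𝒱 | y ∉ U} :=
          fun j hj => ⟨(hW _ (hsS j)).1, hj⟩
        exact ((hγ y).preimage hinj.injOn).subset this
      rw [← Nat.cofinite_eq_atTop]
      filter_upwards [hfinj.compl_mem_cofinite] with j hj
      have hj' : y ∈ W (s j) := by simpa using hj
      exact ((hc (W (s j)) (hW _ (hsS j)).1).subset hj').1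

end Pool.Agent.H414G
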