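import Mathlib
import Pool.Agent.H414G.Basic

set_option autoImplicit false

open Set Filter
open scoped Cardinal

namespace Pool.Agent.H414G

/-- It is enough to treat sequences of sequences of open sets. -/
theorem sOne_of {X : Type} [TopologicalSpace X]
    (h : ∀ U : ℕ → ℕ → Set X, (∀ n m, IsOpen (U n m)) → (∀ n x, ∀ᶠ m in atTop, x ∈ U n m) →
      ∃ f : ℕ → ℕ, ∀ x, ∃ n, x ∈ U n (f n)) : SOneGammaO X := by
  intro 𝒰 h𝒰
  let u : ∀ n, ℕ ↪ 𝒰 n := fun n => (h𝒰 n).2.1.natEmbedding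
  obtain ⟨f, hf⟩ := h (fun n m => (u n m : Set X)) (fun n m => (h𝒰 n).1.1 _ (u n m).2) (by
    intro n x
    rw [← Nat.cofinite_eq_atTop]
    have hinj : Function.Injective fun m => (u n m : Set X) :=
      Subtype.val_injective.comp (u n).injective
    have : {m | x ∉ (u n m : Set X)} ⊆ (fun m => (u n m : Set X)) ⁻¹' {U ∈ 𝒰 n | x ∉ U} :=
      fun m hm => ⟨(u n m).2, hm⟩
    have hfin := (((h𝒰 n).2.2 x).preimage hinj.injOn).subset this
    filter_upwards [hfin.compl_mem_cofinite] with m hm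
    simpa using hm)
  exact ⟨fun n => u n (f n), fun n => (u n (f n)).2, eq_univ_of_forall fun x => by
    obtain ⟨n, hn⟩ := hf x
    exact mem_iUnion.2 ⟨n, hn⟩⟩

variable {A Y : Type} [TopologicalSpace A] [TopologicalSpace Y]

theorem section_open {U : Set (A × Y)} (hU : IsOpen U) (a : A) : IsOpen {y | (a, y) ∈ U} :=
  hU.preimage (Continuous.prodMk_right a)

/-- Fewer than `cov(M)` points. -/
theorem prod_cov [T1Space Y] (hY : GammaProperty Y) (hA : #A < covM) : SOneGammaO (A × Y) := by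
  refine sOne_of fun U hU h => ?_
  have h1 : ∀ a : A, ∃ p : ℕ → ℕ × ℕ, StrictMono (fun j => (p j).1) ∧
      ∀ y, ∀ᶠ j in atTop, (a, y) ∈ U (p j).1 (p j).2 := fun a =>
    gamma_select hY (fun n m => {y | (a, y) ∈ U n m}) (fun n m => section_open (hU n m) a)
      fun n y => h n (a, y)
  choose p hp1 hp2 using h1
  obtain ⟨f, hf⟩ := exists_mem_residual hA
    (fun a => {f : ℕ → ℕ | ∃ᶠ j in atTop, f (p a j).1 = (p a j).2})
    fun a => hit_residual (p a) (hp1 a)
  refine ⟨f, ?_⟩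
  rintro ⟨a, y⟩
  obtain ⟨j, hj1, hj2⟩ := ((hf a).and_eventually (hp2 a y)).exists
  exact ⟨(p a j).1, by rw [hj1]; exact hj2⟩

open Classical in
/-- Fewer than `𝔥` points. -/
theorem prod_h [T1Space Y] (hY : GammaProperty Y) (hA : #A < hNum) : SOneGammaO (A × Y) := by
  refine sOne_of fun U hU h => ?_
  let V : ℕ → ℕ → Set (A × Y) := fun j d => ⋂ l ∈ Finset.range (j + 1), U l d
  have hVo : ∀ j d, IsOpen (V j d) := fun j d => isOpen_biInter_finset fun l _ => hU l d
  have hVm : ∀ {j j' : ℕ} (_ : j ≤ j') (d : ℕ), V j' d ⊆ V j d := by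
    intro j j' hj d x hx
    simp only [V, mem_iInter, Finset.mem_range] at hx ⊢
    exact fun l hl => hx l (by omega)
  have hVU : ∀ j d, V j d ⊆ U j d := by
    intro j d x hx
    simp only [V, mem_iInter, Finset.mem_range] at hx
    exact hx j (by omega)
  have hVe : ∀ j x, ∀ᶠ d in atTop, x ∈ V j d := by
    intro j x
    have : ∀ᶠ d in atTop, ∀ l ∈ Finset.range (j + 1), x ∈ U l d :=
      (Finset.eventually_all _).2 fun l _ => h l x
    filter_upwards [this] with d hd
    simp only [V, mem_iInter]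
    exact hd
  let cnt : Set ℕ → ℕ → ℕ := fun D d => Nat.count (· ∈ D) d
  let 𝒟 : A → Set (Set ℕ) := fun a =>
    {D | ∀ (c : ℕ) (y : Y), {d ∈ D | (a, y) ∉ V (cnt D d + c) d}.Finite}
  have ho : ∀ a, OpenFam (𝒟 a) := by
    intro a D hD D' _ hfin c y
    set c0 := hfin.toFinset.card with hc0
    have hcnt : ∀ d, cnt D' d ≤ cnt D d + c0 := by
      intro d
      simp only [cnt, Nat.count_eq_card_filter_range]
      have : (Finset.range d).filter (· ∈ D') ⊆
          (Finset.range d).filter (· ∈ D) ∪ hfin.toFinset := by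
        intro e he
        rw [Finset.mem_filter] at he
        by_cases h : e ∈ D
        · exact Finset.mem_union_left _ (Finset.mem_filter.2 ⟨he.1, h⟩)
        · exact Finset.mem_union_right _ (hfin.mem_toFinset.2 ⟨he.2, h⟩)
      exact (Finset.card_le_card this).trans (Finset.card_union_le _ _)
    refine (hfin.union (hD (c0 + c) y)).subset ?_
    rintro d ⟨hd, hn⟩
    by_cases hdD : d ∈ D
    · right
      refine ⟨hdD, fun hm => hn ?_⟩
      exact hVm (by have := hcnt d; omega) d hm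
    · exact Or.inl ⟨hd, hdD⟩
  have hd : ∀ a, DenseFam (𝒟 a) := by
    intro a X hX
    obtain ⟨p, hp1, hp2⟩ := gamma_select hY
      (fun j k => {y | (a, y) ∈ V (2 * j) (Nat.nth (· ∈ X) (j + k))})
      (fun j k => section_open (hVo _ _) a) (by
        intro j y
        have h1 : Tendsto (fun k => Nat.nth (· ∈ X) (j + k)) atTop atTop :=
          (Nat.nth_strictMono hX).tendsto_atTop.comp (tendsto_add_atTop_nat j |>.congr fun k => by
            ring)
        exact h1.eventually (hVe (2 * j) (a, y)))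
    let d : ℕ → ℕ := fun i => Nat.nth (· ∈ X) ((p i).1 + (p i).2)
    have hdi : ∀ i, i ≤ d i := fun i =>
      (hp1.id_le i).trans ((Nat.le_add_right _ _).trans ((Nat.nth_strictMono hX).id_le _))
    have hdt : Tendsto d atTop atTop := tendsto_atTop_mono hdi tendsto_id
    obtain ⟨φ, hφ, hdφ⟩ := strictMono_subseq_of_tendsto_atTop hdt
    refine ⟨range (d ∘ φ), ?_, infinite_range_of_injective hdφ.injective, ?_⟩
    · intro c y
      have hcnt : ∀ i, cnt (range (d ∘ φ)) ((d ∘ φ) i) = i := by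
        intro i
        simp only [cnt, Nat.count_eq_card_filter_range]
        have : (Finset.range ((d ∘ φ) i)).filter (· ∈ range (d ∘ φ)) =
            (Finset.range i).image (d ∘ φ) := by
          ext e
          simp only [Finset.mem_filter, Finset.mem_range, mem_range, Finset.mem_image]
          constructor
          · rintro ⟨h1, j, rfl⟩
            exact ⟨j, hdφ.lt_iff_lt.1 h1, rfl⟩
          · rintro ⟨j, hj, rfl⟩
            exact ⟨hdφ hj, j, rfl⟩
        rw [this, Finset.card_image_of_injective _ hdφ.injective, Finset.card_range]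
      have h1 : ∀ᶠ i in atTop, (a, y) ∈ V (2 * (p (φ i)).1) (d (φ i)) :=
        hφ.tendsto_atTop.eventually (hp2 y)
      have h2 : ∀ᶠ i in atTop, (a, y) ∈ V (cnt (range (d ∘ φ)) ((d ∘ φ) i) + c) ((d ∘ φ) i) := by
        filter_upwards [h1, eventually_ge_atTop c] with i hi hc
        refine hVm ?_ _ hi
        rw [hcnt]
        have : i ≤ (p (φ i)).1 := (hφ.id_le i).trans (hp1.id_le (φ i))
        omega
      rw [← Nat.cofinite_eq_atTop] at h2
      have h3 : {i | ¬ (a, y) ∈ V (cnt (range (d ∘ φ)) ((d ∘ φ) i) + c) ((d ∘ φ) i)}.Finite := h2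
      refine (h3.image (d ∘ φ)).subset ?_
      rintro e ⟨⟨i, rfl⟩, hi⟩
      exact ⟨i, hi, rfl⟩
    · rintro _ ⟨i, rfl⟩
      exact Nat.nth_mem_of_infinite hX _
  obtain ⟨D, hDi, hD⟩ := exists_mem_dense hA 𝒟 hd ho
  refine ⟨Nat.nth (· ∈ D), ?_⟩
  rintro ⟨a, y⟩
  obtain ⟨e, he, he2⟩ := (hDi.sdiff (hD a 0 y)).nonempty
  have h1 : (a, y) ∈ V (cnt D e) e := by
    by_contra hc
    exact he2 ⟨he, by simpa using hc⟩
  refine ⟨cnt D e, ?_⟩
  have h2 : Nat.nth (· ∈ D) (cnt D e) = e := Nat.nth_count he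
  rw [h2]
  exact hVU _ _ h1

/-- Spaces `Y` which are concentrated on a countable set. -/
theorem prod_conc {S : Set Y} (hS : S.Countable)
    (hY : ∀ G : Set Y, IsOpen G → S ⊆ G → #(Gᶜ : Set Y) < bNum) (hA : #A < dNum) :
    SOneGammaO (A × Y) := by
  refine sOne_of fun U hU h => ?_
  obtain ⟨s, hs⟩ : ∃ s : ℕ → Set Y, (∀ n, (s n).Finite) ∧ (∀ n, s n ⊆ s (n + 1)) ∧
      ⋃ n, s n = S := by
    rcases S.eq_empty_or_nonempty with h0 | h0
    · exact ⟨fun _ => ∅, fun _ => finite_empty, fun _ => subset_rfl, by simp [h0]⟩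
    · obtain ⟨e, he⟩ := hS.exists_eq_range h0
      refine ⟨fun n => e '' Iio n, fun n => (finite_Iio n).image e,
        fun n => image_mono (Iio_subset_Iio (Nat.le_succ n)), ?_⟩
      rw [he]
      ext y
      simp only [mem_iUnion, mem_image, mem_Iio, mem_range]
      constructor
      · rintro ⟨n, i, -, rfl⟩
        exact ⟨i, rfl⟩
      · rintro ⟨i, rfl⟩
        exact ⟨i + 1, i, Nat.lt_succ_self i, rfl⟩
  obtain ⟨hs1, hs2, hs3⟩ := hs
  have hsm : Monotone s := monotone_nat_of_le_succ hs2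
  -- the even indices
  have h1 : ∀ (a : A) (n : ℕ), ∃ k, ∀ m, k ≤ m → ∀ y ∈ s n, (a, y) ∈ U (2 * n) m := by
    intro a n
    exact eventually_atTop.1 ((hs1 n).eventually_all.2 fun y _ => h (2 * n) (a, y))
  choose g hg using h1
  obtain ⟨f0, hf0⟩ := exists_not_dominated hA g
  let G : A → Set Y := fun a => ⋃ n, ⋃ (_ : g a n < f0 n), {y | (a, y) ∈ U (2 * n) (f0 n)}
  have hGo : ∀ a, IsOpen (G a) := fun a =>
    isOpen_iUnion fun n => isOpen_iUnion fun _ => section_open (hU _ _) a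
  have hGS : ∀ a, S ⊆ G a := by
    intro a y hy
    rw [← hs3] at hy
    obtain ⟨i, hi⟩ := mem_iUnion.1 hy
    obtain ⟨n, hn, hin⟩ := ((hf0 a).and_eventually (eventually_ge_atTop i)).exists
    exact mem_iUnion.2 ⟨n, mem_iUnion.2 ⟨hn, hg a n _ hn.le y (hsm hin hi)⟩⟩
  -- the odd indices
  have h2 : ∀ (a : A) (y : Y) (n : ℕ), ∃ k, ∀ m, k ≤ m → (a, y) ∈ U (2 * n + 1) m :=
    fun a y n => eventually_atTop.1 (h (2 * n + 1) (a, y))
  choose t ht using h2
  have h3 : ∀ a : A, ∃ b : ℕ → ℕ, ∀ y : ((G a)ᶜ : Set Y), ∀ᶠ n in atTop, t a y n ≤ b n :=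
    fun a => exists_bound (hY (G a) (hGo a) (hGS a)) fun y => t a y
  choose b hb using h3
  obtain ⟨f1, hf1⟩ := exists_not_dominated hA b
  refine ⟨fun n => if n % 2 = 0 then f0 (n / 2) else f1 (n / 2), ?_⟩
  rintro ⟨a, y⟩
  by_cases hy : y ∈ G a
  · obtain ⟨n, hn⟩ := mem_iUnion.1 hy
    obtain ⟨-, hn2⟩ := mem_iUnion.1 hn
    refine ⟨2 * n, ?_⟩
    have e1 : 2 * n % 2 = 0 := by omega
    have e2 : 2 * n / 2 = n := by omega
    show (a, y) ∈ U (2 * n) (if 2 * n % 2 = 0 then f0 (2 * n / 2) else f1 (2 * n / 2))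
    rw [if_pos e1, e2]
    exact hn2
  · obtain ⟨n, hn, hn2⟩ := ((hf1 a).and_eventually (hb a ⟨y, hy⟩)).exists
    refine ⟨2 * n + 1, ?_⟩
    have e1 : ¬ (2 * n + 1) % 2 = 0 := by omega
    have e2 : (2 * n + 1) / 2 = n := by omega
    show (a, y) ∈ U (2 * n + 1)
      (if (2 * n + 1) % 2 = 0 then f0 ((2 * n + 1) / 2) else f1 ((2 * n + 1) / 2))
    rw [if_neg e1, e2]
    exact ht a y n _ (hn2.trans hn.le)

end Pool.Agent.H414G
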