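import Mathlib
import Pool.Agent.H414G.Prod

set_option autoImplicit false

open Set Filter
open Cardinal (mk_range_le)
open scoped Cardinal

namespace Pool.Agent.H414G

/-- A family of infinite subsets of `ω` is groupwise dense if it is closed under infinite almost
subsets and if, for every partition of `ω` into finite intervals `[s k, s (k + 1))`, it contains a
union of infinitely many of these intervals. -/
def GroupwiseDense (𝒟 : Set (Set ℕ)) : Prop :=
  (∀ D ∈ 𝒟, D.Infinite) ∧
  (∀ D ∈ 𝒟, ∀ D' : Set ℕ, D'.Infinite → (D' \ D).Finite → D' ∈ 𝒟) ∧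
  ∀ s : ℕ → ℕ, s 0 = 0 → StrictMono s →
    ∃ K : Set ℕ, K.Infinite ∧ (⋃ k ∈ K, Ico (s k) (s (k + 1))) ∈ 𝒟

/-- The groupwise density number `𝔤`: the least size of a family of groupwise dense families whose
intersection is empty. -/
noncomputable def gNum : Cardinal.{0} :=
  sInf {κ | ∃ F : Set (Set (Set ℕ)), #F = κ ∧ (∀ 𝒟 ∈ F, GroupwiseDense 𝒟) ∧ ⋂₀ F = ∅}

theorem exists_mem_groupwise {ι : Type} (h : #ι < gNum) (𝒟 : ι → Set (Set ℕ))
    (hd : ∀ i, GroupwiseDense (𝒟 i)) : ∃ D : Set ℕ, ∀ i, D ∈ 𝒟 i := by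
  by_contra hc
  push Not at hc
  have : gNum ≤ #(range 𝒟) := by
    apply csInf_le'
    refine ⟨range 𝒟, rfl, ?_, ?_⟩
    · rintro _ ⟨i, rfl⟩
      exact hd i
    · apply eq_empty_of_forall_notMem
      intro D hD
      obtain ⟨i, hi⟩ := hc D
      exact hi (hD _ ⟨i, rfl⟩)
  exact absurd (this.trans mk_range_le) (not_le.2 h)

/-- The first element of `D` from `n` on. -/
noncomputable def nxt (D : Set ℕ) (n : ℕ) : ℕ := sInf {d | d ∈ D ∧ n ≤ d}

theorem nxt_spec {D : Set ℕ} (hD : D.Infinite) (n : ℕ) : nxt D n ∈ D ∧ n ≤ nxt D n := by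
  have : {d | d ∈ D ∧ n ≤ d}.Nonempty := by
    obtain ⟨d, hd, hn⟩ := hD.exists_gt n
    exact ⟨d, hd, hn.le⟩
  exact Nat.sInf_mem this

variable {A Y : Type} [TopologicalSpace A] [TopologicalSpace Y]

/-- Fewer than `𝔤` points. -/
theorem prod_g [T1Space Y] (hY : GammaProperty Y) (hA : #A < gNum) : SOneGammaO (A × Y) := by
  refine sOne_of fun U hU h => ?_
  let 𝒟 : A → Set (Set ℕ) := fun a => {D | D.Infinite ∧ ∀ D' : Set ℕ, D'.Infinite →
    (D' \ D).Finite → ∀ y : Y, ∃ n, (a, y) ∈ U n (nxt D' n)}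
  have hd : ∀ a, GroupwiseDense (𝒟 a) := by
    intro a
    refine ⟨fun D hD => hD.1, ?_, ?_⟩
    · rintro D ⟨-, hD⟩ D' hi hf
      refine ⟨hi, fun D'' hi' hf' => hD D'' hi' ((hf'.union hf).subset ?_)⟩
      intro d hd
      by_cases h1 : d ∈ D'
      · exact Or.inr ⟨h1, hd.2⟩
      · exact Or.inl ⟨hd.1, h1⟩
    · intro s _ hs
      let W : ℕ → ℕ → Set Y := fun j k =>
        ⋂ n ∈ Finset.range (s (j + 1) + 1), ⋂ d ∈ Finset.Ico (s (j + 1 + k)) (s (j + 1 + k + 1)),
          {y | (a, y) ∈ U n d}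
      have hW : ∀ j k, IsOpen (W j k) := fun j k =>
        isOpen_biInter_finset fun n _ => isOpen_biInter_finset fun d _ => section_open (hU n d) a
      have hmem : ∀ {j k : ℕ} {y : Y}, y ∈ W j k ↔ ∀ n ≤ s (j + 1), ∀ d, s (j + 1 + k) ≤ d →
          d < s (j + 1 + k + 1) → (a, y) ∈ U n d := by
        intro j k y
        simp only [W, mem_iInter, Finset.mem_range, Finset.mem_Ico, mem_setOf_eq, Nat.lt_succ_iff]
        exact ⟨fun h n hn d h1 h2 => h n hn d ⟨h1, h2⟩, fun h n hn d hd => h n hn d hd.1 hd.2⟩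
      have hWe : ∀ j y, ∀ᶠ k in atTop, y ∈ W j k := by
        intro j y
        have h1 : ∀ᶠ m in atTop, ∀ n ∈ Finset.range (s (j + 1) + 1), (a, y) ∈ U n m :=
          (Finset.eventually_all _).2 fun n _ => h n (a, y)
        obtain ⟨T, hT⟩ := eventually_atTop.1 h1
        filter_upwards [eventually_ge_atTop T] with k hk
        rw [hmem]
        intro n hn d hd _
        refine hT d ?_ n (Finset.mem_range.2 (Nat.lt_succ_of_le hn))
        have : j + 1 + k ≤ s (j + 1 + k) := hs.id_le _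
        omega
      obtain ⟨p, hp1, hp2⟩ := gamma_select hY W hW hWe
      let c : ℕ → ℕ := fun i => (p i).1 + 1 + (p i).2
      -- choose a sparse subsequence
      have hstep : ∀ i, ∃ i', i < i' ∧ c i ≤ (p i').1 := fun i =>
        ⟨max (i + 1) (c i), lt_of_lt_of_le (Nat.lt_succ_self i) (le_max_left _ _),
          (le_max_right _ _).trans (hp1.id_le _)⟩
      choose g hg1 hg2 using hstep
      let φ : ℕ → ℕ := fun i => g^[i] 0
      have hφs : ∀ i, φ (i + 1) = g (φ i) := fun i => Function.iterate_succ_apply' g i 0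
      have hφ : StrictMono φ := strictMono_nat_of_lt_succ fun i => by
        rw [hφs]
        exact hg1 _
      have hc1 : ∀ i, c (φ i) ≤ (p (φ (i + 1))).1 := fun i => by
        rw [hφs]
        exact hg2 _
      have hc2 : StrictMono fun i => c (φ i) := strictMono_nat_of_lt_succ fun i => by
        have := hc1 i
        show c (φ i) < (p (φ (i + 1))).1 + 1 + (p (φ (i + 1))).2
        omega
      refine ⟨range fun i => c (φ i), infinite_range_of_injective hc2.injective, ?_, ?_⟩
      · refine infinite_of_injective_forall_mem (f := fun i => s (c (φ i)))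
          (hs.comp hc2).injective fun i => ?_
        refine mem_iUnion₂.2 ⟨c (φ i), ⟨i, rfl⟩, le_rfl, hs (Nat.lt_succ_self _)⟩
      · intro D' hi hf y
        obtain ⟨M, hM⟩ : ∃ M, ∀ d ∈ D', M ≤ d →
            d ∈ ⋃ k ∈ range fun i => c (φ i), Ico (s k) (s (k + 1)) := by
          obtain ⟨M, hM⟩ := hf.bddAbove
          refine ⟨M + 1, fun d hd hMd => ?_⟩
          by_contra hn
          have := hM ⟨hd, hn⟩
          omega
        obtain ⟨i0, hi0⟩ := eventually_atTop.1 (hφ.tendsto_atTop.eventually (hp2 y))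
        set i1 := max i0 M with hi1
        set n := s (c (φ i1) + 1) with hn
        have hnM : M ≤ n := by
          have h1 : i1 ≤ c (φ i1) := hc2.id_le i1
          have h2 : c (φ i1) + 1 ≤ n := hs.id_le _
          have h3 : M ≤ i1 := le_max_right _ _
          omega
        obtain ⟨hd1, hd2⟩ := nxt_spec hi n
        obtain ⟨k, ⟨i, rfl⟩, hd3, hd4⟩ := mem_iUnion₂.1 (hM _ hd1 (hnM.trans hd2))
        simp only at hd3 hd4
        have hlt : i1 < i := by
          have h1 : s (c (φ i1) + 1) < s (c (φ i) + 1) := lt_of_le_of_lt hd2 hd4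
          have h2 : c (φ i1) + 1 < c (φ i) + 1 := hs.lt_iff_lt.1 h1
          exact hc2.lt_iff_lt.1 (show c (φ i1) < c (φ i) by omega)
        refine ⟨n, ?_⟩
        have hy := hi0 i (by have := le_max_left i0 M; omega)
        rw [hmem] at hy
        refine hy n ?_ _ hd3 hd4
        refine hs.monotone ?_
        have h1 := hc1 i1
        have h2 : (p (φ (i1 + 1))).1 ≤ (p (φ i)).1 := hp1.monotone (hφ.monotone hlt)
        omega
  obtain ⟨D, hD⟩ := exists_mem_groupwise hA 𝒟 hd
  refine ⟨nxt D, ?_⟩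
  rintro ⟨a, y⟩
  exact (hD a).2 D (hD a).1 (by simp) y

end Pool.Agent.H414G
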