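import Mathlib
import Pool.Agent.H414G.Group

set_option autoImplicit false

open Set Filter
open Cardinal (mk_range_le)
open scoped Cardinal

namespace Pool.Agent.H414G

/-- A groupwise dense ideal: a groupwise dense family which is closed under finite unions. -/
def GroupwiseDenseIdeal (𝒟 : Set (Set ℕ)) : Prop :=
  GroupwiseDense 𝒟 ∧ ∀ D ∈ 𝒟, ∀ D' ∈ 𝒟, D ∪ D' ∈ 𝒟

/-- The groupwise density number for filters `𝔤_f`: the least size of a family of groupwise dense
ideals whose intersection is empty. -/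
noncomputable def gfNum : Cardinal.{0} :=
  sInf {κ | ∃ F : Set (Set (Set ℕ)), #F = κ ∧ (∀ 𝒟 ∈ F, GroupwiseDenseIdeal 𝒟) ∧ ⋂₀ F = ∅}

theorem exists_mem_ideal {ι : Type} (h : #ι < gfNum) (𝒟 : ι → Set (Set ℕ))
    (hd : ∀ i, GroupwiseDenseIdeal (𝒟 i)) : ∃ D : Set ℕ, ∀ i, D ∈ 𝒟 i := by
  by_contra hc
  push Not at hc
  have : gfNum ≤ #(range 𝒟) := by
    apply csInf_le'
    refine ⟨range 𝒟, rfl, ?_, ?_⟩
    · rintro _ ⟨i, rfl⟩
      exact hd i
    · apply eq_empty_of_forall_notMem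
      intro D hD
      obtain ⟨i, hi⟩ := hc D
      exact hi (hD _ ⟨i, rfl⟩)
  exact absurd (this.trans mk_range_le) (not_le.2 h)

variable {A Y : Type} [TopologicalSpace A] [TopologicalSpace Y]

open Classical in
/-- The ideal of the sets along which the sequences can be diagonalised is groupwise dense. -/
theorem diag_groupwise [T1Space Y] (hY : GammaProperty Y) (V : ℕ → ℕ → Set Y)
    (hV : ∀ n m, IsOpen (V n m)) (h : ∀ n y, ∀ᶠ m in atTop, y ∈ V n m) :
    GroupwiseDenseIdeal {D | D.Infinite ∧ ∃ j : ℕ → ℕ, Tendsto j atTop atTop ∧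
      ∀ y : Y, ∀ᶠ d in atTop, d ∈ D → ∀ l ≤ j d, y ∈ V l d} := by
  refine ⟨⟨fun D hD => hD.1, ?_, ?_⟩, ?_⟩
  · rintro D ⟨-, j, hj, hD⟩ D' hi hf
    refine ⟨hi, j, hj, fun y => ?_⟩
    have h1 : ∀ᶠ d in atTop, d ∈ D' → d ∈ D := by
      rw [← Nat.cofinite_eq_atTop]
      filter_upwards [hf.compl_mem_cofinite] with d hd hd'
      by_contra hn
      exact hd ⟨hd', hn⟩
    filter_upwards [h1, hD y] with d hd1 hd2 hd
    exact hd2 (hd1 hd)
  · intro s _ hs
    let W : ℕ → ℕ → Set Y := fun j k =>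
      ⋂ n ∈ Finset.range (j + 1), ⋂ d ∈ Finset.Ico (s (j + 1 + k)) (s (j + 1 + k + 1)), V n d
    have hW : ∀ j k, IsOpen (W j k) := fun j k =>
      isOpen_biInter_finset fun n _ => isOpen_biInter_finset fun d _ => hV n d
    have hmem : ∀ {j k : ℕ} {y : Y}, y ∈ W j k ↔ ∀ n ≤ j, ∀ d, s (j + 1 + k) ≤ d →
        d < s (j + 1 + k + 1) → y ∈ V n d := by
      intro j k y
      simp only [W, mem_iInter, Finset.mem_range, Finset.mem_Ico, Nat.lt_succ_iff]
      exact ⟨fun h n hn d h1 h2 => h n hn d ⟨h1, h2⟩, fun h n hn d hd => h n hn d hd.1 hd.2⟩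
    have hWe : ∀ j y, ∀ᶠ k in atTop, y ∈ W j k := by
      intro j y
      have h1 : ∀ᶠ m in atTop, ∀ n ∈ Finset.range (j + 1), y ∈ V n m :=
        (Finset.eventually_all _).2 fun n _ => h n y
      obtain ⟨T, hT⟩ := eventually_atTop.1 h1
      filter_upwards [eventually_ge_atTop T] with k hk
      rw [hmem]
      intro n hn d hd _
      refine hT d ?_ n (Finset.mem_range.2 (Nat.lt_succ_of_le hn))
      have : j + 1 + k ≤ s (j + 1 + k) := hs.id_le _
      omega
    obtain ⟨p, hp1, hp2⟩ := gamma_select hY W hW hWe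
    let c : ℕ → ℕ := fun i => (p i).1 + 1 + (p i).2
    have hct : Tendsto c atTop atTop :=
      tendsto_atTop_mono (fun i => by
        have h1 : i ≤ (p i).1 := hp1.id_le i
        show i ≤ (p i).1 + 1 + (p i).2
        omega) tendsto_id
    obtain ⟨φ, hφ, hcφ⟩ := strictMono_subseq_of_tendsto_atTop hct
    refine ⟨range (c ∘ φ), infinite_range_of_injective hcφ.injective, ?_, ?_⟩
    · refine infinite_of_injective_forall_mem (f := fun i => s ((c ∘ φ) i))
          (hs.comp hcφ).injective fun i => ?_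
      exact mem_iUnion₂.2 ⟨(c ∘ φ) i, ⟨i, rfl⟩, le_rfl, hs (Nat.lt_succ_self _)⟩
    · let P : ℕ → ℕ → Prop := fun d i => s ((c ∘ φ) i) ≤ d ∧ d < s ((c ∘ φ) i + 1)
      let j : ℕ → ℕ := fun d => if hd : ∃ i, P d i then (p (φ (Nat.find hd))).1 else d
      have hlarge : ∀ B d, s ((c ∘ φ) B + 1) ≤ d → ∀ i, P d i → B < i := by
        intro B d hd i hi
        have h1 : s ((c ∘ φ) B + 1) < s ((c ∘ φ) i + 1) := lt_of_le_of_lt hd hi.2
        have h2 : (c ∘ φ) B + 1 < (c ∘ φ) i + 1 := hs.lt_iff_lt.1 h1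
        exact hcφ.lt_iff_lt.1 (show (c ∘ φ) B < (c ∘ φ) i by omega)
      refine ⟨j, ?_, fun y => ?_⟩
      · rw [tendsto_atTop]
        intro B
        filter_upwards [eventually_ge_atTop B, eventually_ge_atTop (s ((c ∘ φ) B + 1))] with d h1 h2
        by_cases hd : ∃ i, P d i
        · have h3 := hlarge B d h2 _ (Nat.find_spec hd)
          have h4 : Nat.find hd ≤ φ (Nat.find hd) := hφ.id_le _
          have h5 : φ (Nat.find hd) ≤ (p (φ (Nat.find hd))).1 := hp1.id_le _
          simp only [j, dif_pos hd]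
          omega
        · simp only [j, dif_neg hd]
          exact h1
      · obtain ⟨i0, hi0⟩ := eventually_atTop.1 (hφ.tendsto_atTop.eventually (hp2 y))
        filter_upwards [eventually_ge_atTop (s ((c ∘ φ) i0 + 1))] with d h2 hdD l hl
        obtain ⟨k, ⟨i, rfl⟩, hd3, hd4⟩ := mem_iUnion₂.1 hdD
        have hd : ∃ i, P d i := ⟨i, hd3, hd4⟩
        have h3 := hlarge i0 d h2 _ (Nat.find_spec hd)
        have hy := hi0 (Nat.find hd) h3.le
        rw [hmem] at hy
        simp only [j, dif_pos hd] at hl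
        exact hy l hl d (Nat.find_spec hd).1 (Nat.find_spec hd).2
  · rintro D ⟨hDi, j, hj, hD⟩ D' ⟨-, j', hj', hD'⟩
    refine ⟨hDi.mono subset_union_left, fun d => min (j d) (j' d), ?_, fun y => ?_⟩
    · exact tendsto_atTop.2 fun b =>
        ((tendsto_atTop.1 hj b).and (tendsto_atTop.1 hj' b)).mono fun d hd => le_min hd.1 hd.2
    · filter_upwards [hD y, hD' y] with d h1 h2 hd l hl
      rcases hd with hd | hd
      · exact h1 hd l (hl.trans (min_le_left _ _))
      · exact h2 hd l (hl.trans (min_le_right _ _))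

/-- Fewer than `min 𝔡 𝔤_f` points. -/
theorem prod_gf [T1Space Y] (hY : GammaProperty Y) (hA : #A < min dNum gfNum) :
    SOneGammaO (A × Y) := by
  refine sOne_of fun U hU h => ?_
  obtain ⟨D, hD⟩ := exists_mem_ideal (hA.trans_le (min_le_right _ _)) _ fun a =>
    diag_groupwise hY (fun n m => {y | (a, y) ∈ U n m}) (fun n m => section_open (hU n m) a)
      fun n y => h n (a, y)
  rcases isEmpty_or_nonempty A with hE | ⟨⟨a0⟩⟩
  · exact ⟨fun _ => 0, fun x => (hE.false x.1).elim⟩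
  have hDi : D.Infinite := (hD a0).1
  choose _ j hj1 hj2 using hD
  let e : ℕ → ℕ := Nat.nth (· ∈ D)
  have he : StrictMono e := Nat.nth_strictMono hDi
  have heD : ∀ i, e i ∈ D := fun i => Nat.nth_mem_of_infinite hDi i
  have h1 : ∀ (a : A) (n : ℕ), ∃ i, ∀ i', i ≤ i' → n ≤ j a (e i') := fun a n =>
    eventually_atTop.1 (tendsto_atTop.1 ((hj1 a).comp he.tendsto_atTop) n)
  choose g hg using h1
  obtain ⟨f, hf⟩ := exists_not_dominated (hA.trans_le (min_le_left _ _)) g
  refine ⟨fun n => e (max (f n) n), ?_⟩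
  rintro ⟨a, y⟩
  have ht : Tendsto (fun n => e (max (f n) n)) atTop atTop :=
    tendsto_atTop_mono (fun n => (le_max_right (f n) n).trans (he.id_le _)) tendsto_id
  obtain ⟨n, hn1, hn2⟩ := ((hf a).and_eventually (ht.eventually (hj2 a y))).exists
  exact ⟨n, hn2 (heD _) n (hg a n _ (hn1.le.trans (le_max_left _ _)))⟩

/-! ### `𝔤 ≤ 𝔡` and `𝔤 ≤ 𝔤_f` -/

end Pool.Agent.H414G
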