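import Mathlib
import Pool.Agent.H414G.Filt

set_option autoImplicit false

open Set Filter
open scoped Cardinal

namespace Pool.Agent.H414G

variable {T : Type} [TopologicalSpace T]

/-- `𝒞` is a `γ`-cover of the subset `X`: an infinite family of open sets, none of which contains
`X`, such that each point of `X` is in all but finitely many members. -/
def GammaCov (X : Set T) (𝒞 : Set (Set T)) : Prop :=
  (∀ V ∈ 𝒞, IsOpen V) ∧ 𝒞.Infinite ∧ (∀ V ∈ 𝒞, ¬ X ⊆ V) ∧
    ∀ x ∈ X, {V : Set T | V ∈ 𝒞 ∧ x ∉ V}.Finite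

/-- `X` satisfies `S₁(Γ, Γ)`. -/
def SOneGammaGamma (X : Set T) : Prop :=
  ∀ 𝒰 : ℕ → Set (Set T), (∀ n, GammaCov X (𝒰 n)) →
    ∃ U : ℕ → Set T, (∀ n, U n ∈ 𝒰 n) ∧ GammaCov X (range U)

/-- A sequence of open sets which converges to `X` and has no member containing `X` gives a
`γ`-cover. -/
theorem gammaCov_range {X : Set T} (V : ℕ → Set T) (hV : ∀ m, IsOpen (V m))
    (hX : ∀ m, ¬ X ⊆ V m) (h : ∀ x ∈ X, ∀ᶠ m in atTop, x ∈ V m) : GammaCov X (range V) := by
  refine ⟨?_, ?_, ?_, ?_⟩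
  · rintro _ ⟨m, rfl⟩
    exact hV m
  · intro hfin
    -- some set occurs infinitely often
    obtain ⟨W, -, hW⟩ : ∃ W ∈ range V, {m | V m = W}.Infinite := by
      by_contra hc
      push Not at hc
      have : (⋃ W ∈ range V, {m | V m = W}).Finite := hfin.biUnion fun W hW => by
        have := hc W hW
        exact not_infinite.1 (by simpa using this)
      refine infinite_univ (this.subset fun m _ => ?_)
      exact mem_iUnion₂.2 ⟨V m, ⟨m, rfl⟩, rfl⟩
    obtain ⟨m0, hm0⟩ := hW.nonempty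
    refine hX m0 fun x hx => ?_
    obtain ⟨N, hN⟩ := eventually_atTop.1 (h x hx)
    obtain ⟨m, hm, hmN⟩ := hW.exists_gt N
    have h1 : V m0 = W := hm0
    have h2 : V m = W := hm
    rw [h1, ← h2]
    exact hN m hmN.le
  · rintro _ ⟨m, rfl⟩
    exact hX m
  · intro x hx
    have h1 := h x hx
    rw [← Nat.cofinite_eq_atTop] at h1
    have h2 : {m | ¬ x ∈ V m}.Finite := h1
    refine (h2.image V).subset ?_
    rintro _ ⟨⟨m, rfl⟩, hm⟩
    exact ⟨m, hm, rfl⟩

theorem sgg_select {X : Set T} (hS : SOneGammaGamma X) (V : ℕ → ℕ → Set T)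
    (hV : ∀ n m, IsOpen (V n m)) (h : ∀ n, ∀ x ∈ X, ∀ᶠ m in atTop, x ∈ V n m) :
    ∃ p : ℕ → ℕ × ℕ, StrictMono (fun j => (p j).1) ∧
      ∀ x ∈ X, ∀ᶠ j in atTop, x ∈ V (p j).1 (p j).2 := by
  classical
  by_cases hN : {n | ∃ m, X ⊆ V n m}.Infinite
  · have hn : ∀ j, ∃ m, X ⊆ V (Nat.nth (· ∈ {n | ∃ m, X ⊆ V n m}) j) m := fun j =>
      Nat.nth_mem_of_infinite hN j
    choose m hm using hn
    exact ⟨fun j => (Nat.nth (· ∈ {n | ∃ m, X ⊆ V n m}) j, m j), Nat.nth_strictMono hN,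
      fun x hx => Eventually.of_forall fun j => hm j hx⟩
  · obtain ⟨N, hN⟩ : ∃ N, ∀ n, N ≤ n → ∀ m, ¬ X ⊆ V n m := by
      obtain ⟨N, hN⟩ := (not_infinite.1 hN).bddAbove
      refine ⟨N + 1, fun n hn m hm => ?_⟩
      have := hN (show n ∈ {n | ∃ m, X ⊆ V n m} from ⟨m, hm⟩)
      omega
    obtain ⟨U, hU, -, hinf, -, hUf⟩ := hS (fun n => range (V (N + n))) fun n =>
      gammaCov_range (V (N + n)) (hV _) (hN _ (Nat.le_add_right _ _)) (h _)
    choose g hg using hU
    let S : Set ℕ := {n | ∀ n' < n, U n' ≠ U n}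
    have hSi : S.Infinite := by
      intro hf
      refine hinf ((hf.image U).subset ?_)
      rintro _ ⟨n, rfl⟩
      have hex : ∃ k, U k = U n := ⟨n, rfl⟩
      refine ⟨Nat.find hex, fun n' hn' he => ?_, Nat.find_spec hex⟩
      exact Nat.find_min hex hn' (he.trans (Nat.find_spec hex))
    let s : ℕ → ℕ := Nat.nth (· ∈ S)
    have hs : StrictMono s := Nat.nth_strictMono hSi
    have hsS : ∀ j, s j ∈ S := fun j => Nat.nth_mem_of_infinite hSi j
    have hinj : Function.Injective fun j => U (s j) := by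
      intro i j hij
      by_contra hne
      rcases lt_or_gt_of_ne hne with hlt | hlt
      · exact hsS j (s i) (hs hlt) hij
      · exact hsS i (s j) (hs hlt) hij.symm
    refine ⟨fun j => (N + s j, g (s j)), fun i j hij => Nat.add_lt_add_left (hs hij) N, ?_⟩
    intro x hx
    have hfin : {j | x ∉ U (s j)}.Finite := by
      have : {j | x ∉ U (s j)} ⊆ (fun j => U (s j)) ⁻¹' {V : Set T | V ∈ range U ∧ x ∉ V} :=
        fun j hj => ⟨⟨s j, rfl⟩, hj⟩
      exact ((hUf x hx).preimage hinj.injOn).subset this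
    rw [← Nat.cofinite_eq_atTop]
    filter_upwards [hfin.compl_mem_cofinite] with j hj
    have hj' : x ∈ U (s j) := by simpa using hj
    rw [← hg (s j)] at hj'
    exact hj'

open Classical in
/-- The ideal of the sets along which the sequences can be diagonalised is groupwise dense. -/
theorem diag_groupwise' {X : Set T} (hS : SOneGammaGamma X) (V : ℕ → ℕ → Set T)
    (hV : ∀ n m, IsOpen (V n m)) (h : ∀ n, ∀ x ∈ X, ∀ᶠ m in atTop, x ∈ V n m) :
    GroupwiseDenseIdeal {D | D.Infinite ∧ ∃ j : ℕ → ℕ, Tendsto j atTop atTop ∧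
      ∀ x ∈ X, ∀ᶠ d in atTop, d ∈ D → ∀ l ≤ j d, x ∈ V l d} := by
  refine ⟨⟨fun D hD => hD.1, ?_, ?_⟩, ?_⟩
  · rintro D ⟨-, j, hj, hD⟩ D' hi hf
    refine ⟨hi, j, hj, fun y hy => ?_⟩
    have h1 : ∀ᶠ d in atTop, d ∈ D' → d ∈ D := by
      rw [← Nat.cofinite_eq_atTop]
      filter_upwards [hf.compl_mem_cofinite] with d hd hd'
      by_contra hn
      exact hd ⟨hd', hn⟩
    filter_upwards [h1, hD y hy] with d hd1 hd2 hd
    exact hd2 (hd1 hd)
  · intro s _ hs
    let W : ℕ → ℕ → Set T := fun j k =>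
      ⋂ n ∈ Finset.range (j + 1), ⋂ d ∈ Finset.Ico (s (j + 1 + k)) (s (j + 1 + k + 1)), V n d
    have hW : ∀ j k, IsOpen (W j k) := fun j k =>
      isOpen_biInter_finset fun n _ => isOpen_biInter_finset fun d _ => hV n d
    have hmem : ∀ {j k : ℕ} {y : T}, y ∈ W j k ↔ ∀ n ≤ j, ∀ d, s (j + 1 + k) ≤ d →
        d < s (j + 1 + k + 1) → y ∈ V n d := by
      intro j k y
      simp only [W, mem_iInter, Finset.mem_range, Finset.mem_Ico, Nat.lt_succ_iff]
      exact ⟨fun h n hn d h1 h2 => h n hn d ⟨h1, h2⟩, fun h n hn d hd => h n hn d hd.1 hd.2⟩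
    have hWe : ∀ j, ∀ y ∈ X, ∀ᶠ k in atTop, y ∈ W j k := by
      intro j y hy
      have h1 : ∀ᶠ m in atTop, ∀ n ∈ Finset.range (j + 1), y ∈ V n m :=
        (Finset.eventually_all _).2 fun n _ => h n y hy
      obtain ⟨M, hM⟩ := eventually_atTop.1 h1
      filter_upwards [eventually_ge_atTop M] with k hk
      rw [hmem]
      intro n hn d hd _
      refine hM d ?_ n (Finset.mem_range.2 (Nat.lt_succ_of_le hn))
      have : j + 1 + k ≤ s (j + 1 + k) := hs.id_le _
      omega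
    obtain ⟨p, hp1, hp2⟩ := sgg_select hS W hW hWe
    let c : ℕ → ℕ := fun i => (p i).1 + 1 + (p i).2
    have hct : Tendsto c atTop atTop :=
      tendsto_atTop_mono (fun i => by
        have h1 : i ≤ (p i).1 := hp1.id_le i
        show i ≤ (p i).1 + 1 + (p i).2
        omega) tendsto_id
    obtain ⟨φ, hφ, hcφ⟩ := strictMono_subseq_of_tendsto_atTop hct
    refine ⟨range (c ∘ φ), infinite_range_of_injective hcφ.injective, ?_, ?_⟩
    · refine infinite_of_injective_forall_mem (f := fun i => s ((c ∘ φ) i))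
          (hs.comp hcφ).injective fun i => ?_
      exact mem_iUnion₂.2 ⟨(c ∘ φ) i, ⟨i, rfl⟩, le_rfl, hs (Nat.lt_succ_self _)⟩
    · let P : ℕ → ℕ → Prop := fun d i => s ((c ∘ φ) i) ≤ d ∧ d < s ((c ∘ φ) i + 1)
      let j : ℕ → ℕ := fun d => if hd : ∃ i, P d i then (p (φ (Nat.find hd))).1 else d
      have hlarge : ∀ B d, s ((c ∘ φ) B + 1) ≤ d → ∀ i, P d i → B < i := by
        intro B d hd i hi
        have h1 : s ((c ∘ φ) B + 1) < s ((c ∘ φ) i + 1) := lt_of_le_of_lt hd hi.2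
        have h2 : (c ∘ φ) B + 1 < (c ∘ φ) i + 1 := hs.lt_iff_lt.1 h1
        exact hcφ.lt_iff_lt.1 (show (c ∘ φ) B < (c ∘ φ) i by omega)
      refine ⟨j, ?_, fun y hyX => ?_⟩
      · rw [tendsto_atTop]
        intro B
        filter_upwards [eventually_ge_atTop B, eventually_ge_atTop (s ((c ∘ φ) B + 1))] with d h1 h2
        by_cases hd : ∃ i, P d i
        · have h3 := hlarge B d h2 _ (Nat.find_spec hd)
          have h4 : Nat.find hd ≤ φ (Nat.find hd) := hφ.id_le _
          have h5 : φ (Nat.find hd) ≤ (p (φ (Nat.find hd))).1 := hp1.id_le _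
          simp only [j, dif_pos hd]
          omega
        · simp only [j, dif_neg hd]
          exact h1
      · obtain ⟨i0, hi0⟩ := eventually_atTop.1 (hφ.tendsto_atTop.eventually (hp2 y hyX))
        filter_upwards [eventually_ge_atTop (s ((c ∘ φ) i0 + 1))] with d h2 hdD l hl
        obtain ⟨k, ⟨i, rfl⟩, hd3, hd4⟩ := mem_iUnion₂.1 hdD
        have hd : ∃ i, P d i := ⟨i, hd3, hd4⟩
        have h3 := hlarge i0 d h2 _ (Nat.find_spec hd)
        have hy := hi0 (Nat.find hd) h3.le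
        rw [hmem] at hy
        simp only [j, dif_pos hd] at hl
        exact hy l hl d (Nat.find_spec hd).1 (Nat.find_spec hd).2
  · rintro D ⟨hDi, j, hj, hD⟩ D' ⟨-, j', hj', hD'⟩
    refine ⟨hDi.mono subset_union_left, fun d => min (j d) (j' d), ?_, fun y hy => ?_⟩
    · exact tendsto_atTop.2 fun b =>
        ((tendsto_atTop.1 hj b).and (tendsto_atTop.1 hj' b)).mono fun d hd => le_min hd.1 hd.2
    · filter_upwards [hD y hy, hD' y hy] with d h1 h2 hd l hl
      rcases hd with hd | hd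
      · exact h1 hd l (hl.trans (min_le_left _ _))
      · exact h2 hd l (hl.trans (min_le_right _ _))

/-- The union of fewer than `min 𝔟 𝔤_f` sets which satisfy `S₁(Γ, Γ)` satisfies `S₁(Γ, Γ)`. -/
theorem union_gf {ι : Type} (X : ι → Set T) (hS : ∀ i, SOneGammaGamma (X i))
    (hι : #ι < min bNum gfNum) : SOneGammaGamma (⋃ i, X i) := by
  intro 𝒰 h𝒰
  rcases isEmpty_or_nonempty ι with hE | ⟨⟨i0⟩⟩
  · exfalso
    obtain ⟨V, hV⟩ := (h𝒰 0).2.1.nonempty
    refine (h𝒰 0).2.2.1 V hV fun x hx => ?_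
    obtain ⟨i, -⟩ := mem_iUnion.1 hx
    exact (hE.false i).elim
  let u : ∀ n, ℕ ↪ 𝒰 n := fun n => (h𝒰 n).2.1.natEmbedding
  have hU : ∀ n m, IsOpen (u n m : Set T) := fun n m => (h𝒰 n).1 _ (u n m).2
  have hUe : ∀ n, ∀ x ∈ ⋃ i, X i, ∀ᶠ m in atTop, x ∈ (u n m : Set T) := by
    intro n x hx
    rw [← Nat.cofinite_eq_atTop]
    have hinj : Function.Injective fun m => (u n m : Set T) :=
      Subtype.val_injective.comp (u n).injective
    have : {m | x ∉ (u n m : Set T)} ⊆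
        (fun m => (u n m : Set T)) ⁻¹' {V : Set T | V ∈ 𝒰 n ∧ x ∉ V} :=
      fun m hm => ⟨(u n m).2, hm⟩
    have hfin := (((h𝒰 n).2.2.2 x hx).preimage hinj.injOn).subset this
    filter_upwards [hfin.compl_mem_cofinite] with m hm
    simpa using hm
  obtain ⟨D, hD⟩ := exists_mem_ideal (hι.trans_le (min_le_right _ _)) _ fun i =>
    diag_groupwise' (hS i) (fun n m => (u n m : Set T)) hU
      fun n x hx => hUe n x (mem_iUnion.2 ⟨i, hx⟩)
  have hDi : D.Infinite := (hD i0).1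
  choose _ j hj1 hj2 using hD
  let e : ℕ → ℕ := Nat.nth (· ∈ D)
  have he : StrictMono e := Nat.nth_strictMono hDi
  have heD : ∀ k, e k ∈ D := fun k => Nat.nth_mem_of_infinite hDi k
  have h1 : ∀ (i : ι) (n : ℕ), ∃ k, ∀ k', k ≤ k' → n ≤ j i (e k') := fun i n =>
    eventually_atTop.1 (tendsto_atTop.1 ((hj1 i).comp he.tendsto_atTop) n)
  choose g hg using h1
  obtain ⟨f, hf⟩ := exists_bound (hι.trans_le (min_le_left _ _)) g
  have ht : Tendsto (fun n => e (max (f n) n)) atTop atTop :=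
    tendsto_atTop_mono (fun n => (le_max_right (f n) n).trans (he.id_le _)) tendsto_id
  refine ⟨fun n => u n (e (max (f n) n)), fun n => (u n _).2, ?_⟩
  refine gammaCov_range (fun n => (u n (e (max (f n) n)) : Set T)) (fun n => hU _ _)
    (fun n => (h𝒰 n).2.2.1 _ (u n _).2) ?_
  intro x hx
  obtain ⟨i, hi⟩ := mem_iUnion.1 hx
  filter_upwards [hf i, ht.eventually (hj2 i x hi)] with n hn1 hn2
  exact hn2 (heD _) n (hg i n _ (hn1.trans (le_max_left _ _)))

end Pool.Agent.H414G
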