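import Mathlib
import Pool.Agent.H414G.Filt

set_option autoImplicit false

open Set Filter
open scoped Cardinal Topology NNReal

namespace Pool.Agent.H414G

/-- `C_p(X)` satisfies `S₁(Γ₀, Γ₀)` (property `α₂` at the zero function): from countably many
sequences of continuous functions which converge to zero pointwise one can pick one term each such
that the picked terms converge to zero pointwise. -/
def CpSelection (X : Type) [TopologicalSpace X] : Prop :=
  ∀ f : ℕ → ℕ → C(X, ℝ), (∀ n x, Tendsto (fun k => f n k x) atTop (𝓝 0)) →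
    ∃ m : ℕ → ℕ, ∀ x, Tendsto (fun n => f n (m n) x) atTop (𝓝 0)

open Classical in
/-- The ideal of the sets along which the functions can be diagonalised is groupwise dense. -/
theorem cp_groupwise {X : Type} [TopologicalSpace X] (hX : CpSelection X)
    (f : ℕ → ℕ → C(X, ℝ)) (h : ∀ n x, Tendsto (fun k => f n k x) atTop (𝓝 0)) :
    GroupwiseDenseIdeal {D | D.Infinite ∧ ∃ j : ℕ → ℕ, Tendsto j atTop atTop ∧
      ∀ x, ∀ ε : ℝ≥0, 0 < ε → ∀ᶠ d in atTop, d ∈ D → ∀ l ≤ j d, ‖f l d x‖₊ < ε} := by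
  have h' : ∀ n x, ∀ ε : ℝ≥0, 0 < ε → ∀ᶠ k in atTop, ‖f n k x‖₊ < ε := by
    intro n x ε hε
    have h1 := (h n x).nnnorm
    rw [nnnorm_zero] at h1
    exact h1.eventually (gt_mem_nhds hε)
  refine ⟨⟨fun D hD => hD.1, ?_, ?_⟩, ?_⟩
  · rintro D ⟨-, j, hj, hD⟩ D' hi hf
    refine ⟨hi, j, hj, fun y ε hε => ?_⟩
    have h1 : ∀ᶠ d in atTop, d ∈ D' → d ∈ D := by
      rw [← Nat.cofinite_eq_atTop]
      filter_upwards [hf.compl_mem_cofinite] with d hd hd'
      by_contra hn
      exact hd ⟨hd', hn⟩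
    filter_upwards [h1, hD y ε hε] with d hd1 hd2 hd
    exact hd2 (hd1 hd)
  · intro s _ hs
    let Q : ℕ → ℕ → Finset (ℕ × ℕ) := fun j k =>
      Finset.range (j + 1) ×ˢ Finset.Ico (s (j + 1 + k)) (s (j + 1 + k + 1))
    let G : ℕ → ℕ → X → ℝ≥0 := fun j k x => (Q j k).sup fun q => ‖f q.1 q.2 x‖₊
    have hGc : ∀ j k, Continuous (G j k) := fun j k =>
      Continuous.finset_sup_apply fun q _ => (f q.1 q.2).continuous.nnnorm
    have hGe : ∀ j x, ∀ ε : ℝ≥0, 0 < ε → ∀ᶠ k in atTop, G j k x < ε := by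
      intro j x ε hε
      have h1 : ∀ᶠ m in atTop, ∀ n ∈ Finset.range (j + 1), ‖f n m x‖₊ < ε :=
        (Finset.eventually_all _).2 fun n _ => h' n x ε hε
      obtain ⟨M, hM⟩ := eventually_atTop.1 h1
      filter_upwards [eventually_ge_atTop M] with k hk
      refine (Finset.sup_lt_iff hε).2 fun q hq => ?_
      rw [Finset.mem_product, Finset.mem_Ico] at hq
      refine hM q.2 ?_ q.1 hq.1
      have : j + 1 + k ≤ s (j + 1 + k) := hs.id_le _
      omega
    obtain ⟨m, hm⟩ := hX (fun j k => ⟨fun x => (G j k x : ℝ), NNReal.continuous_coe.comp (hGc j k)⟩)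
      (by
        intro j x
        show Tendsto (fun k => (G j k x : ℝ)) atTop (𝓝 ((0 : ℝ≥0) : ℝ))
        rw [NNReal.tendsto_coe]
        refine tendsto_order.2 ⟨fun a ha => absurd ha not_lt_zero, fun a ha => hGe j x a ha⟩)
    have hm' : ∀ x, ∀ ε : ℝ≥0, 0 < ε → ∀ᶠ j in atTop, G j (m j) x < ε := by
      intro x ε hε
      have h1 : Tendsto (fun j => (G j (m j) x : ℝ)) atTop (𝓝 ((0 : ℝ≥0) : ℝ)) := hm x
      rw [NNReal.tendsto_coe] at h1
      exact h1.eventually (gt_mem_nhds hε)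
    let c : ℕ → ℕ := fun i => i + 1 + m i
    have hct : Tendsto c atTop atTop :=
      tendsto_atTop_mono (fun i => by
        show i ≤ i + 1 + m i
        omega) tendsto_id
    obtain ⟨φ, hφ, hcφ⟩ := strictMono_subseq_of_tendsto_atTop hct
    refine ⟨range (c ∘ φ), infinite_range_of_injective hcφ.injective, ?_, ?_⟩
    · refine infinite_of_injective_forall_mem (f := fun i => s ((c ∘ φ) i))
          (hs.comp hcφ).injective fun i => ?_
      exact mem_iUnion₂.2 ⟨(c ∘ φ) i, ⟨i, rfl⟩, le_rfl, hs (Nat.lt_succ_self _)⟩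
    · let P : ℕ → ℕ → Prop := fun d i => s ((c ∘ φ) i) ≤ d ∧ d < s ((c ∘ φ) i + 1)
      let j : ℕ → ℕ := fun d => if hd : ∃ i, P d i then φ (Nat.find hd) else d
      have hlarge : ∀ B d, s ((c ∘ φ) B + 1) ≤ d → ∀ i, P d i → B < i := by
        intro B d hd i hi
        have h1 : s ((c ∘ φ) B + 1) < s ((c ∘ φ) i + 1) := lt_of_le_of_lt hd hi.2
        have h2 : (c ∘ φ) B + 1 < (c ∘ φ) i + 1 := hs.lt_iff_lt.1 h1
        exact hcφ.lt_iff_lt.1 (show (c ∘ φ) B < (c ∘ φ) i by omega)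
      refine ⟨j, ?_, fun x ε hε => ?_⟩
      · rw [tendsto_atTop]
        intro B
        filter_upwards [eventually_ge_atTop B, eventually_ge_atTop (s ((c ∘ φ) B + 1))] with d h1 h2
        by_cases hd : ∃ i, P d i
        · have h3 := hlarge B d h2 _ (Nat.find_spec hd)
          have h4 : Nat.find hd ≤ φ (Nat.find hd) := hφ.id_le _
          simp only [j, dif_pos hd]
          omega
        · simp only [j, dif_neg hd]
          exact h1
      · obtain ⟨i0, hi0⟩ := eventually_atTop.1 (hφ.tendsto_atTop.eventually (hm' x ε hε))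
        filter_upwards [eventually_ge_atTop (s ((c ∘ φ) i0 + 1))] with d h2 hdD l hl
        obtain ⟨k, ⟨i, rfl⟩, hd3, hd4⟩ := mem_iUnion₂.1 hdD
        have hd : ∃ i, P d i := ⟨i, hd3, hd4⟩
        have h3 := hlarge i0 d h2 _ (Nat.find_spec hd)
        have hy := hi0 (Nat.find hd) h3.le
        simp only [j, dif_pos hd] at hl
        refine lt_of_le_of_lt ?_ hy
        have hspec := Nat.find_spec hd
        refine Finset.le_sup (f := fun q : ℕ × ℕ => ‖f q.1 q.2 x‖₊) (b := (l, d)) ?_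
        exact Finset.mem_product.2 ⟨Finset.mem_range.2 (Nat.lt_succ_of_le hl),
          Finset.mem_Ico.2 ⟨hspec.1, hspec.2⟩⟩
  · rintro D ⟨hDi, j, hj, hD⟩ D' ⟨-, j', hj', hD'⟩
    refine ⟨hDi.mono subset_union_left, fun d => min (j d) (j' d), ?_, fun x ε hε => ?_⟩
    · exact tendsto_atTop.2 fun b =>
        ((tendsto_atTop.1 hj b).and (tendsto_atTop.1 hj' b)).mono fun d hd => le_min hd.1 hd.2
    · filter_upwards [hD x ε hε, hD' x ε hε] with d h1 h2 hd l hl
      rcases hd with hd | hd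
      · exact h1 hd l (hl.trans (min_le_left _ _))
      · exact h2 hd l (hl.trans (min_le_right _ _))

/-- The union of fewer than `min 𝔟 𝔤_f` subspaces `X` such that `C_p(X)` satisfies `S₁(Γ₀, Γ₀)` has
this property. -/
theorem cp_union {T : Type} [TopologicalSpace T] {ι : Type} (X : ι → Set T)
    (hS : ∀ i, CpSelection ↥(X i)) (hι : #ι < min bNum gfNum) :
    CpSelection ↥(⋃ i, X i) := by
  intro f hf
  rcases isEmpty_or_nonempty ι with hE | ⟨⟨i0⟩⟩
  · refine ⟨fun _ => 0, fun x => ?_⟩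
    obtain ⟨i, -⟩ := mem_iUnion.1 x.2
    exact (hE.false i).elim
  let inc : ∀ i, C(↥(X i), ↥(⋃ i, X i)) := fun i =>
    ⟨inclusion (subset_iUnion X i), continuous_inclusion (subset_iUnion X i)⟩
  obtain ⟨D, hD⟩ := exists_mem_ideal (hι.trans_le (min_le_right _ _)) _ fun i =>
    cp_groupwise (hS i) (fun n k => (f n k).comp (inc i)) fun n x => hf n (inc i x)
  have hDi : D.Infinite := (hD i0).1
  choose _ j hj1 hj2 using hD
  let e : ℕ → ℕ := Nat.nth (· ∈ D)
  have he : StrictMono e := Nat.nth_strictMono hDi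
  have heD : ∀ k, e k ∈ D := fun k => Nat.nth_mem_of_infinite hDi k
  have h1 : ∀ (i : ι) (n : ℕ), ∃ k, ∀ k', k ≤ k' → n ≤ j i (e k') := fun i n =>
    eventually_atTop.1 (tendsto_atTop.1 ((hj1 i).comp he.tendsto_atTop) n)
  choose g hg using h1
  obtain ⟨b, hb⟩ := exists_bound (hι.trans_le (min_le_left _ _)) g
  have ht : Tendsto (fun n => e (max (b n) n)) atTop atTop :=
    tendsto_atTop_mono (fun n => (le_max_right (b n) n).trans (he.id_le _)) tendsto_id
  refine ⟨fun n => e (max (b n) n), ?_⟩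
  rintro ⟨x, hx⟩
  obtain ⟨i, hi⟩ := mem_iUnion.1 hx
  rw [tendsto_zero_iff_norm_tendsto_zero]
  refine (Metric.tendsto_nhds).2 fun ε hε => ?_
  filter_upwards [hb i, ht.eventually (hj2 i ⟨x, hi⟩ ⟨ε, hε.le⟩ (by exact_mod_cast hε))] with n hn1 hn2
  have h2 := hn2 (heD _) n (hg i n _ (hn1.trans (le_max_left _ _)))
  have h3 : ‖f n (e (max (b n) n)) ⟨x, hx⟩‖ < ε := by exact_mod_cast h2
  rw [Real.dist_eq, sub_zero, abs_norm]
  exact h3

end Pool.Agent.H414G
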