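import Mathlib
import Pool.Agent.H414G.Prod

set_option autoImplicit false

open Set Filter
open scoped Cardinal

namespace Pool.Agent.H414G

variable {Y : Type} [TopologicalSpace Y]

/-- For every sequence of sequences of open sets such that each point of `Z` is, for each `n`, in all
but finitely many sets of the `n`-th sequence, one can cut off a finite part of each of the sequences
such that for each point of `Z`, for all but finitely many `n`, the point is in all remaining sets of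
the `n`-th sequence. -/
def QN (Z : Set Y) : Prop :=
  ∀ W : ℕ → ℕ → Set Y, (∀ n m, IsOpen (W n m)) → (∀ n, ∀ z ∈ Z, ∀ᶠ m in atTop, z ∈ W n m) →
    ∃ b : ℕ → ℕ, ∀ z ∈ Z, ∀ᶠ n in atTop, ∀ m, b n ≤ m → z ∈ W n m

/-- Rank `0`: the sets with property `QN`. Rank `r + 1`: there is a subset `S` of rank `r` such that
all differences of `Z` and an open set containing `S` are of rank `r`. -/
def QNRank : ℕ → Set Y → Prop
  | 0, Z => QN Z
  | r + 1, Z => ∃ S ⊆ Z, QNRank r S ∧ ∀ G : Set Y, IsOpen G → S ⊆ G → QNRank r (Z \ G)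

/-- Sets of size `< 𝔟` have property `QN`. -/
theorem qn_of_small {Z : Set Y} (hZ : #Z < bNum) : QN Z := by
  intro W _ h
  have h1 : ∀ (z : Z) (n : ℕ), ∃ k, ∀ m, k ≤ m → (z : Y) ∈ W n m :=
    fun z n => eventually_atTop.1 (h n z z.2)
  choose t ht using h1
  obtain ⟨b, hb⟩ := exists_bound hZ t
  refine ⟨b, fun z hz => ?_⟩
  filter_upwards [hb ⟨z, hz⟩] with n hn m hm
  exact ht ⟨z, hz⟩ n m (hn.trans hm)

open MeasureTheory in
/-- Sets all of whose Borel images in the Baire space are bounded have property `QN`. -/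
theorem qn_of_borel {Z : Set Y}
    (hZ : ∀ g : Y → ℕ → ℕ, (@Measurable _ _ (borel Y) _ g) →
      ∃ b : ℕ → ℕ, ∀ z ∈ Z, ∀ᶠ n in atTop, g z n ≤ b n) : QN Z := by
  classical
  intro W hW h
  let _ : MeasurableSpace Y := borel Y
  have : BorelSpace Y := ⟨rfl⟩
  -- the sets of the points which are in all sets of the `n`-th sequence from the `k`-th on
  let C : ℕ → ℕ → Set Y := fun n k => ⋂ m ≥ k, W n m
  have hC : ∀ n k, MeasurableSet (C n k) := fun n k =>
    MeasurableSet.iInter fun m => MeasurableSet.iInter fun _ => (hW n m).measurableSet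
  let D : ℕ → Set Y := fun n => ⋃ k, C n k
  have hD : ∀ n, MeasurableSet (D n) := fun n => MeasurableSet.iUnion fun k => hC n k
  have hex : ∀ n (z : Y), ∃ k, z ∈ C n k ∪ (D n)ᶜ := by
    intro n z
    by_cases hz : z ∈ D n
    · obtain ⟨k, hk⟩ := mem_iUnion.1 hz
      exact ⟨k, Or.inl hk⟩
    · exact ⟨0, Or.inr hz⟩
  let g : Y → ℕ → ℕ := fun z n => Nat.find (hex n z)
  have hg : Measurable g := measurable_pi_lambda _ fun n =>
    measurable_find (hex n) fun k => (hC n k).union (hD n).compl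
  obtain ⟨b, hb⟩ := hZ g hg
  refine ⟨b, fun z hz => ?_⟩
  filter_upwards [hb z hz] with n hn m hm
  have h1 : z ∈ C n (g z n) ∪ (D n)ᶜ := Nat.find_spec (hex n z)
  rcases h1 with h1 | h1
  · simp only [C, mem_iInter] at h1
    exact h1 m (hn.trans hm)
  · exfalso
    apply h1
    obtain ⟨k, hk⟩ := eventually_atTop.1 (h n z hz)
    refine mem_iUnion.2 ⟨k, ?_⟩
    simp only [C, mem_iInter]
    exact fun m hm => hk m hm

/-- The main induction, for families. -/
theorem family_rank {A : Type} (hA : #A < dNum) (r : ℕ) : ∀ (Z : A → Set Y)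
    (U : ℕ → ℕ → A → Set Y), (∀ n m a, IsOpen (U n m a)) → (∀ a, QNRank r (Z a)) →
    (∀ n a, ∀ z ∈ Z a, ∀ᶠ m in atTop, z ∈ U n m a) →
    ∃ f : ℕ → ℕ, ∀ a, ∀ z ∈ Z a, ∃ n, z ∈ U n (f n) a := by
  induction r with
  | zero =>
    intro Z U hU hZ h
    have h1 : ∀ a, ∃ b : ℕ → ℕ, ∀ z ∈ Z a, ∀ᶠ n in atTop, ∀ m, b n ≤ m → z ∈ U n m a :=
      fun a => hZ a (fun n m => U n m a) (fun n m => hU n m a) fun n => h n a
    choose b hb using h1
    obtain ⟨f, hf⟩ := exists_not_dominated hA b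
    refine ⟨f, fun a z hz => ?_⟩
    obtain ⟨n, hn1, hn2⟩ := ((hf a).and_eventually (hb a z hz)).exists
    exact ⟨n, hn2 _ hn1.le⟩
  | succ r ih =>
    intro Z U hU hZ h
    choose S hSZ hS hG using hZ
    obtain ⟨f0, hf0⟩ := ih S (fun n => U (2 * n)) (fun n m a => hU _ _ _) hS
      fun n a z hz => h _ a z (hSZ a hz)
    let G : A → Set Y := fun a => ⋃ n, U (2 * n) (f0 n) a
    obtain ⟨f1, hf1⟩ := ih (fun a => Z a \ G a) (fun n => U (2 * n + 1)) (fun n m a => hU _ _ _)
      (fun a => hG a (G a) (isOpen_iUnion fun n => hU _ _ _) fun z hz => by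
        obtain ⟨n, hn⟩ := hf0 a z hz
        exact mem_iUnion.2 ⟨n, hn⟩)
      fun n a z hz => h _ a z hz.1
    refine ⟨fun n => if n % 2 = 0 then f0 (n / 2) else f1 (n / 2), fun a z hz => ?_⟩
    by_cases hy : z ∈ G a
    · obtain ⟨n, hn⟩ := mem_iUnion.1 hy
      refine ⟨2 * n, ?_⟩
      have e1 : 2 * n % 2 = 0 := by omega
      have e2 : 2 * n / 2 = n := by omega
      show z ∈ U (2 * n) (if 2 * n % 2 = 0 then f0 (2 * n / 2) else f1 (2 * n / 2)) a
      rw [if_pos e1, e2]
      exact hn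
    · obtain ⟨n, hn⟩ := hf1 a z ⟨hz, hy⟩
      refine ⟨2 * n + 1, ?_⟩
      have e1 : ¬ (2 * n + 1) % 2 = 0 := by omega
      have e2 : (2 * n + 1) / 2 = n := by omega
      show z ∈ U (2 * n + 1)
        (if (2 * n + 1) % 2 = 0 then f0 ((2 * n + 1) / 2) else f1 ((2 * n + 1) / 2)) a
      rw [if_neg e1, e2]
      exact hn

/-- Spaces of finite rank. -/
theorem prod_rank {A : Type} [TopologicalSpace A] {r : ℕ} (hY : QNRank r (univ : Set Y))
    (hA : #A < dNum) : SOneGammaO (A × Y) := by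
  refine sOne_of fun U hU h => ?_
  obtain ⟨f, hf⟩ := family_rank hA r (fun _ : A => (univ : Set Y))
    (fun n m a => {y | (a, y) ∈ U n m}) (fun n m a => section_open (hU n m) a) (fun _ => hY)
    fun n a z _ => h n (a, z)
  exact ⟨f, fun x => hf x.1 x.2 (mem_univ _)⟩

end Pool.Agent.H414G
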