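import Mathlib
import Pool.Agent.H414G.Rank

set_option autoImplicit false

open Set Filter
open scoped Cardinal

namespace Pool.Agent.H414G

/-- Countable schemes for the iteration of the two operations below. -/
inductive Scheme : Type
  | base : Scheme
  | step : Scheme → Scheme → Scheme
  | union : (ℕ → Scheme) → Scheme

variable {Y : Type} [TopologicalSpace Y]

/-- The class of subsets of `Y` given by a property `P` and a scheme: `base` gives the sets with
property `P`; `step s t` gives the sets `Z` with a subset `S` in the class of `s` such that `Z \ G`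
is in the class of `t` for every open `G` containing `S`; `union s` gives the unions of countably
many sets, the `i`-th one in the class of `s i`. -/
def InClass (P : Set Y → Prop) : Scheme → Set Y → Prop
  | Scheme.base, Z => P Z
  | Scheme.step s t, Z =>
    ∃ S ⊆ Z, InClass P s S ∧ ∀ G : Set Y, IsOpen G → S ⊆ G → InClass P t (Z \ G)
  | Scheme.union s, Z => ∃ T : ℕ → Set Y, Z = ⋃ i, T i ∧ ∀ i, InClass P (s i) (T i)

/-- For every sequence of sequences of open sets such that each point of `Z` is, for each `n`, in all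
but finitely many sets of the `n`-th sequence, one can cut off a finite part of each of the sequences
such that for each point of `Z`, for infinitely many `n`, the point is in all remaining sets of the
`n`-th sequence. -/
def ND (Z : Set Y) : Prop :=
  ∀ W : ℕ → ℕ → Set Y, (∀ n m, IsOpen (W n m)) → (∀ n, ∀ z ∈ Z, ∀ᶠ m in atTop, z ∈ W n m) →
    ∃ b : ℕ → ℕ, ∀ z ∈ Z, ∃ᶠ n in atTop, ∀ m, b n ≤ m → z ∈ W n m

/-- Sets of size `< 𝔡` have property `ND`. -/
theorem nd_of_small {Z : Set Y} (hZ : #Z < dNum) : ND Z := by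
  intro W _ h
  have h1 : ∀ (z : Z) (n : ℕ), ∃ k, ∀ m, k ≤ m → (z : Y) ∈ W n m :=
    fun z n => eventually_atTop.1 (h n z z.2)
  choose t ht using h1
  obtain ⟨b, hb⟩ := exists_not_dominated hZ t
  refine ⟨b, fun z hz => (hb ⟨z, hz⟩).mono fun n hn m hm => ht ⟨z, hz⟩ n m (hn.le.trans hm)⟩

/-- The main induction, for families. -/
theorem family_class {A : Type} {P : Set Y → Prop}
    (hbase : ∀ (Z : A → Set Y) (U : ℕ → ℕ → A → Set Y), (∀ n m a, IsOpen (U n m a)) →
      (∀ a, P (Z a)) → (∀ n a, ∀ z ∈ Z a, ∀ᶠ m in atTop, z ∈ U n m a) →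
      ∃ f : ℕ → ℕ, ∀ a, ∀ z ∈ Z a, ∃ n, z ∈ U n (f n) a) (s : Scheme) : ∀ (Z : A → Set Y)
    (U : ℕ → ℕ → A → Set Y), (∀ n m a, IsOpen (U n m a)) → (∀ a, InClass P s (Z a)) →
    (∀ n a, ∀ z ∈ Z a, ∀ᶠ m in atTop, z ∈ U n m a) →
    ∃ f : ℕ → ℕ, ∀ a, ∀ z ∈ Z a, ∃ n, z ∈ U n (f n) a := by
  induction s with
  | base =>
    intro Z U hU hZ h
    exact hbase Z U hU hZ h
  | step s t ihs iht =>
    intro Z U hU hZ h
    choose S hSZ hS hG using hZ
    obtain ⟨f0, hf0⟩ := ihs S (fun n => U (2 * n)) (fun n m a => hU _ _ _) hS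
      fun n a z hz => h _ a z (hSZ a hz)
    let G : A → Set Y := fun a => ⋃ n, U (2 * n) (f0 n) a
    obtain ⟨f1, hf1⟩ := iht (fun a => Z a \ G a) (fun n => U (2 * n + 1)) (fun n m a => hU _ _ _)
      (fun a => hG a (G a) (isOpen_iUnion fun n => hU _ _ _) fun z hz => by
        obtain ⟨n, hn⟩ := hf0 a z hz
        exact mem_iUnion.2 ⟨n, hn⟩)
      fun n a z hz => h _ a z hz.1
    refine ⟨fun n => if n % 2 = 0 then f0 (n / 2) else f1 (n / 2), fun a z hz => ?_⟩
    by_cases hy : z ∈ G a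
    · obtain ⟨n, hn⟩ := mem_iUnion.1 hy
      refine ⟨2 * n, ?_⟩
      have e1 : 2 * n % 2 = 0 := by omega
      have e2 : 2 * n / 2 = n := by omega
      show z ∈ U (2 * n) (if 2 * n % 2 = 0 then f0 (2 * n / 2) else f1 (2 * n / 2)) a
      rw [if_pos e1, e2]
      exact hn
    · obtain ⟨n, hn⟩ := hf1 a z ⟨hz, hy⟩
      refine ⟨2 * n + 1, ?_⟩
      have e1 : ¬ (2 * n + 1) % 2 = 0 := by omega
      have e2 : (2 * n + 1) / 2 = n := by omega
      show z ∈ U (2 * n + 1)
        (if (2 * n + 1) % 2 = 0 then f0 ((2 * n + 1) / 2) else f1 ((2 * n + 1) / 2)) a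
      rw [if_neg e1, e2]
      exact hn
  | union s ih =>
    intro Z U hU hZ h
    choose T hT hTc using hZ
    have h1 : ∀ i, ∃ f : ℕ → ℕ, ∀ a, ∀ z ∈ T a i, ∃ n, z ∈ U (Nat.pair i n) (f n) a := fun i =>
      ih i (fun a => T a i) (fun n => U (Nat.pair i n)) (fun n m a => hU _ _ _)
        (fun a => hTc a i) fun n a z hz => h _ a z (by
          rw [hT a]
          exact mem_iUnion.2 ⟨i, hz⟩)
    choose f hf using h1
    refine ⟨fun k => f (Nat.unpair k).1 (Nat.unpair k).2, fun a z hz => ?_⟩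
    rw [hT a] at hz
    obtain ⟨i, hi⟩ := mem_iUnion.1 hz
    obtain ⟨n, hn⟩ := hf i a z hi
    exact ⟨Nat.pair i n, by simpa using hn⟩

theorem family_nd {A : Type} (hA : #A < bNum) (Z : A → Set Y)
    (U : ℕ → ℕ → A → Set Y) (hU : ∀ n m a, IsOpen (U n m a)) (hZ : ∀ a, ND (Z a))
    (h : ∀ n a, ∀ z ∈ Z a, ∀ᶠ m in atTop, z ∈ U n m a) :
    ∃ f : ℕ → ℕ, ∀ a, ∀ z ∈ Z a, ∃ n, z ∈ U n (f n) a := by
  have h1 : ∀ a, ∃ b : ℕ → ℕ, ∀ z ∈ Z a, ∃ᶠ n in atTop, ∀ m, b n ≤ m → z ∈ U n m a :=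
    fun a => hZ a (fun n m => U n m a) (fun n m => hU n m a) fun n => h n a
  choose b hb using h1
  obtain ⟨f, hf⟩ := exists_bound hA b
  refine ⟨f, fun a z hz => ?_⟩
  obtain ⟨n, hn1, hn2⟩ := ((hb a z hz).and_eventually (hf a)).exists
  exact ⟨n, hn1 _ hn2⟩

theorem prod_of_family {A : Type} [TopologicalSpace A] {P : Set Y → Prop}
    (hbase : ∀ (Z : A → Set Y) (U : ℕ → ℕ → A → Set Y), (∀ n m a, IsOpen (U n m a)) →
      (∀ a, P (Z a)) → (∀ n a, ∀ z ∈ Z a, ∀ᶠ m in atTop, z ∈ U n m a) →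
      ∃ f : ℕ → ℕ, ∀ a, ∀ z ∈ Z a, ∃ n, z ∈ U n (f n) a) {s : Scheme}
    (hY : InClass P s (univ : Set Y)) : SOneGammaO (A × Y) := by
  refine sOne_of fun U hU h => ?_
  obtain ⟨f, hf⟩ := family_class hbase s (fun _ : A => (univ : Set Y))
    (fun n m a => {y | (a, y) ∈ U n m}) (fun n m a => section_open (hU n m) a) (fun _ => hY)
    fun n a z _ => h n (a, z)
  exact ⟨f, fun x => hf x.1 x.2 (mem_univ _)⟩

/-- Products of spaces with fewer than `𝔡` points with spaces in one of the classes from `QN`. -/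
theorem prod_class_qn {A : Type} [TopologicalSpace A] {s : Scheme}
    (hY : InClass QN s (univ : Set Y)) (hA : #A < dNum) : SOneGammaO (A × Y) :=
  prod_of_family (fun Z U hU hZ h => family_rank hA 0 Z U hU hZ h) hY

/-- Products of spaces with fewer than `𝔟` points with spaces in one of the classes from `ND`. -/
theorem prod_class_nd {A : Type} [TopologicalSpace A] {s : Scheme}
    (hY : InClass ND s (univ : Set Y)) (hA : #A < bNum) : SOneGammaO (A × Y) :=
  prod_of_family (fun Z U hU hZ h => family_nd hA Z U hU hZ h) hY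

end Pool.Agent.H414G
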